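import Mathlib
import Pool.Agent.W919.CB.Defs

set_option autoImplicit false

/-!
The Polish group of the permutations of `ℕ` and its logic action on the space of codes of linear
orders.
-/

namespace Pool.Agent.Y421.OR

open Set Filter Topology
open Pool.Agent.W919.CB

theorem continuous_eval' {X I T : Type} [TopologicalSpace X] [TopologicalSpace I]
    [DiscreteTopology I] [TopologicalSpace T] {a : X → I → T} {b : X → I}
    (ha : ∀ i, Continuous fun x => a x i) (hb : Continuous b) :
    Continuous fun x => a x (b x) := by
  rw [continuous_iff_continuousAt]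
  intro x
  have h1 : ∀ᶠ y in 𝓝 x, b y = b x := by
    have h0 : {b x} ∈ 𝓝 (b x) := (isOpen_discrete {b x}).mem_nhds rfl
    exact hb.continuousAt h0
  have h2 : ContinuousAt (fun y => a y (b x)) x := (ha (b x)).continuousAt
  refine h2.congr (h1.mono fun y hy => ?_)
  show a y (b x) = a y (b y)
  rw [hy]

/-- the permutations of `ℕ` -/
def SInf : Type := Equiv.Perm ℕ

instance : Group SInf := inferInstanceAs (Group (Equiv.Perm ℕ))

/-- application of a permutation -/
def app (g : SInf) (n : ℕ) : ℕ := (show Equiv.Perm ℕ from g) n

theorem app_mul (g h : SInf) (n : ℕ) : app (g * h) n = app g (app h n) := rfl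
theorem app_one (n : ℕ) : app 1 n = n := rfl
theorem app_inv (g : SInf) (n : ℕ) : app g (app g⁻¹ n) = n := by
  rw [← app_mul, mul_inv_cancel, app_one]
theorem app_inv' (g : SInf) (n : ℕ) : app g⁻¹ (app g n) = n := by
  rw [← app_mul, inv_mul_cancel, app_one]

theorem app_ext {g h : SInf} (H : ∀ n, app g n = app h n) : g = h := by
  have : (show Equiv.Perm ℕ from g) = (show Equiv.Perm ℕ from h) := Equiv.ext H
  exact this

/-- a permutation and its inverse as functions -/
def two (g : SInf) : (ℕ → ℕ) × (ℕ → ℕ) := (app g, app g⁻¹)

/-- pointwise convergence of the permutations and of their inverses -/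
instance : TopologicalSpace SInf := TopologicalSpace.induced two inferInstance

theorem continuous_two : Continuous two := continuous_induced_dom

theorem continuous_app (n : ℕ) : Continuous fun g : SInf => app g n :=
  (continuous_apply n).comp (continuous_fst.comp continuous_two)

theorem continuous_app_inv (n : ℕ) : Continuous fun g : SInf => app g⁻¹ n :=
  (continuous_apply n).comp (continuous_snd.comp continuous_two)

theorem continuous_to {X : Type} [TopologicalSpace X] {f : X → SInf}
    (h1 : ∀ n, Continuous fun x => app (f x) n) (h2 : ∀ n, Continuous fun x => app (f x)⁻¹ n) :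
    Continuous f := by
  refine continuous_induced_rng.2 ?_
  exact (continuous_pi h1).prodMk (continuous_pi h2)

instance : IsTopologicalGroup SInf where
  continuous_mul := by
    refine continuous_to (fun n => ?_) (fun n => ?_)
    · exact continuous_eval' (a := fun p : SInf × SInf => app p.1) (b := fun p => app p.2 n)
        (fun i => (continuous_app i).comp continuous_fst) ((continuous_app n).comp continuous_snd)
    · have h : (fun p : SInf × SInf => app (p.1 * p.2)⁻¹ n) =
          fun p => app p.2⁻¹ (app p.1⁻¹ n) := by
        funext p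
        rw [mul_inv_rev, app_mul]
      rw [h]
      exact continuous_eval' (a := fun p : SInf × SInf => app p.2⁻¹) (b := fun p => app p.1⁻¹ n)
        (fun i => (continuous_app_inv i).comp continuous_snd)
        ((continuous_app_inv n).comp continuous_fst)
  continuous_inv := by
    refine continuous_to (fun n => continuous_app_inv n) (fun n => ?_)
    simpa using continuous_app n

theorem two_injective : Function.Injective two := by
  intro g h H
  exact app_ext fun n => congrFun (congrArg Prod.fst H) n

theorem range_two : range two =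
    ⋂ n : ℕ, ({p | p.1 (p.2 n) = n} ∩ {p | p.2 (p.1 n) = n} : Set ((ℕ → ℕ) × (ℕ → ℕ))) := by
  ext p
  simp only [mem_iInter, mem_inter_iff, mem_ofPred_eq, mem_range]
  constructor
  · rintro ⟨g, rfl⟩ n
    exact ⟨app_inv g n, app_inv' g n⟩
  · intro h
    let e : Equiv.Perm ℕ :=
      { toFun := p.1
        invFun := p.2
        left_inv := fun n => (h n).2
        right_inv := fun n => (h n).1 }
    exact ⟨(show SInf from e), rfl⟩

theorem isClosedEmbedding_two : IsClosedEmbedding two := by
  refine ⟨⟨⟨rfl⟩, two_injective⟩, ?_⟩
  rw [range_two]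
  refine isClosed_iInter fun n => IsClosed.inter ?_ ?_
  · refine isClosed_eq ?_ continuous_const
    exact continuous_eval' (a := fun p : (ℕ → ℕ) × (ℕ → ℕ) => p.1) (b := fun p => p.2 n)
      (fun i => (continuous_apply i).comp continuous_fst)
      ((continuous_apply n).comp continuous_snd)
  · refine isClosed_eq ?_ continuous_const
    exact continuous_eval' (a := fun p : (ℕ → ℕ) × (ℕ → ℕ) => p.2) (b := fun p => p.1 n)
      (fun i => (continuous_apply i).comp continuous_snd)
      ((continuous_apply n).comp continuous_fst)

instance : PolishSpace SInf := isClosedEmbedding_two.polishSpace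

theorem isClosed_code : IsClosed {x : ℕ × ℕ → Bool | IsCode x} := by
  have h : {x : ℕ × ℕ → Bool | IsCode x} =
      (⋂ a, {x | x (a, a) = true}) ∩
      (⋂ a, ⋂ b, ⋂ c, {x | x (a, b) = true → x (b, c) = true → x (a, c) = true}) ∩
      (⋂ a, ⋂ b, {x | x (a, b) = true → x (b, a) = true → a = b}) ∩
      (⋂ a, ⋂ b, {x | x (a, b) = true ∨ x (b, a) = true}) := by
    ext x
    simp only [mem_inter_iff, mem_iInter, mem_ofPred_eq]
    exact ⟨fun h => ⟨⟨⟨h.refl, h.trans⟩, h.antisymm⟩, h.total⟩,
      fun h => ⟨h.1.1.1, h.1.1.2, h.1.2, h.2⟩⟩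
  have key : ∀ (T : Type) [TopologicalSpace T] [DiscreteTopology T] (f : (ℕ × ℕ → Bool) → T)
      (_ : Continuous f) (S : Set T), IsClosed {x | f x ∈ S} := fun T _ _ f hf S =>
    (isClosed_discrete S).preimage hf
  have c1 : ∀ p : ℕ × ℕ, Continuous fun x : ℕ × ℕ → Bool => x p := fun p => continuous_apply p
  rw [h]
  refine ((IsClosed.inter ?_ ?_).inter ?_).inter ?_
  · exact isClosed_iInter fun a => key Bool _ (c1 (a, a)) {t | t = true}
  · exact isClosed_iInter fun a => isClosed_iInter fun b => isClosed_iInter fun c =>
      key (Bool × Bool × Bool) (fun x => (x (a, b), x (b, c), x (a, c)))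
        ((c1 _).prodMk ((c1 _).prodMk (c1 _))) {t | t.1 = true → t.2.1 = true → t.2.2 = true}
  · exact isClosed_iInter fun a => isClosed_iInter fun b =>
      key (Bool × Bool) (fun x => (x (a, b), x (b, a))) ((c1 _).prodMk (c1 _))
        {t | t.1 = true → t.2 = true → a = b}
  · exact isClosed_iInter fun a => isClosed_iInter fun b =>
      key (Bool × Bool) (fun x => (x (a, b), x (b, a))) ((c1 _).prodMk (c1 _))
        {t | t.1 = true ∨ t.2 = true}

theorem polish_LO : PolishSpace LO := by
  have : IsClosedEmbedding (Subtype.val : LO → ℕ × ℕ → Bool) :=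
    IsClosed.isClosedEmbedding_subtypeVal isClosed_code
  have h0 : IsClosedEmbedding fun b : Bool => if b = true then (1 : ℕ) else 0 := by
    refine Continuous.isClosedEmbedding continuous_of_discreteTopology ?_
    intro a b h
    cases a <;> cases b <;> simp_all
  have h1 : PolishSpace Bool := h0.polishSpace
  have h2 : PolishSpace (ℕ × ℕ → Bool) := inferInstance
  exact this.polishSpace

/-- the logic action -/
def act (g : SInf) (x : LO) : LO :=
  ⟨fun p => x.1 (app g⁻¹ p.1, app g⁻¹ p.2),
    { refl := fun _ => x.2.refl _
      trans := fun _ _ _ h1 h2 => x.2.trans _ _ _ h1 h2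
      antisymm := fun a b h1 h2 => by
        have h := x.2.antisymm _ _ h1 h2
        rw [← app_inv g a, ← app_inv g b, h]
      total := fun _ _ => x.2.total _ _ }⟩

instance : MulAction SInf LO where
  smul := act
  one_smul x := by
    apply Subtype.ext
    funext p
    show x.1 (app 1⁻¹ p.1, app 1⁻¹ p.2) = x.1 p
    rw [inv_one, app_one, app_one]
  mul_smul g h x := by
    apply Subtype.ext
    funext p
    show x.1 (app (g * h)⁻¹ p.1, app (g * h)⁻¹ p.2) =
      x.1 (app h⁻¹ (app g⁻¹ p.1), app h⁻¹ (app g⁻¹ p.2))
    rw [mul_inv_rev, app_mul, app_mul]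

theorem smul_apply' (g : SInf) (x : LO) (m n : ℕ) :
    (g • x).1 (m, n) = x.1 (app g⁻¹ m, app g⁻¹ n) := rfl

instance : ContinuousSMul SInf LO where
  continuous_smul := by
    refine Continuous.subtype_mk (continuous_pi fun p => ?_) _
    exact continuous_eval' (a := fun q : SInf × LO => q.2.1)
      (b := fun q => (app q.1⁻¹ p.1, app q.1⁻¹ p.2))
      (fun i => (continuous_apply i).comp (continuous_subtype_val.comp continuous_snd))
      (((continuous_app_inv _).comp continuous_fst).prodMk
        ((continuous_app_inv _).comp continuous_fst))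

theorem iso_iff (x y : LO) : IsoLO x y ↔ ∃ g : SInf, g • x = y := by
  constructor
  · rintro ⟨f, hf⟩
    refine ⟨(show SInf from f), ?_⟩
    apply Subtype.ext
    funext p
    have h := hf (app (show SInf from f)⁻¹ p.1) (app (show SInf from f)⁻¹ p.2)
    have e1 : f (app (show SInf from f)⁻¹ p.1) = p.1 := app_inv (show SInf from f) p.1
    have e2 : f (app (show SInf from f)⁻¹ p.2) = p.2 := app_inv (show SInf from f) p.2
    rw [e1, e2] at h
    exact h
  · rintro ⟨g, rfl⟩
    refine ⟨(show Equiv.Perm ℕ from g), fun m n => ?_⟩
    show x.1 (m, n) = x.1 (app g⁻¹ (app g m), app g⁻¹ (app g n))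
    rw [app_inv', app_inv']

end Pool.Agent.Y421.OR
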